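import Pool.Agent.helper32.TRI.Spec

/-!
# Row tr:TO4 of project TRI (MP_561ff4_al): the torus elements
-/

set_option autoImplicit false

open Finset

namespace Pool.Agent.TRI

open Pool.Agent.EXC

section

variable {n : ℕ} (C : Matrix (Fin n) (Fin n) ℤ) [IsC C]

/-- the sign of `n(t)` on the root vector of `γ` -/
noncomputable def TO4_s (α γ : Fin n → ℤ) : ℤ := if ip C α γ = 1 ∨ ip C α γ = -1 then sg C α γ else 1

theorem TO4_s_cases (α γ : Fin n → ℤ) : TO4_s C α γ = 1 ∨ TO4_s C α γ = -1 := by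
  unfold TO4_s
  split_ifs
  · exact sg_cases C _ _
  · exact Or.inl rfl

theorem TO4_n {F : Type} [Field F] {α : Fin n → ℤ} (hα : ip C α α = 2) {t u : F} (htu : t * u = 1)
    (g1 g2 : Lm C F ≃ₗ[F] Lm C F) (f1 : IsX C (E C α) t g1) (f2 : IsX C (E C (-α)) u g2) (γ : Fin n → ℤ)
    (hγ : ip C γ γ = 2) :
    (g1 * g2 * g1) (E C γ) = ((TO4_s C α γ : F) * u ^ (ip C γ α)) • (E C (γ - ip C γ α • α) : Lm C F) := by
  have hnα : ip C (-α) (-α) = 2 := neg_root C hα
  obtain ⟨a0, a1, a2, -, a4⟩ := f_ACT n C F α t hα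
  obtain ⟨b0, b1, b2, -, b4⟩ := f_ACT n C F (-α) u hnα
  have hut : u * t = 1 := by rw [mul_comm]; exact htu
  have hg : ∀ v, (g1 * g2 * g1) v = g1 (g2 (g1 v)) := fun v => rfl
  rw [hg]
  obtain ⟨l1, l2⟩ := ip_abs_le (C := C) hα hγ
  have hc : ip C γ α = ip C α γ := ip_comm C _ _
  have hss : sg C α α = -1 := sg_self C hα
  have hsq : (sg C α γ : F) * (sg C α γ : F) = 1 := sg_sq C _ _
  have hneg : ip C (-α) γ = -ip C α γ := ip_neg_left C _ _
  have hu0 : u ≠ 0 := right_ne_zero_of_mul_eq_one htu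
  have hti : u⁻¹ = t := inv_eq_of_mul_eq_one_left htu
  rw [hc]
  obtain h | h | h | h | h : ip C α γ = -2 ∨ ip C α γ = -1 ∨ ip C α γ = 0 ∨ ip C α γ = 1 ∨
      ip C α γ = 2 := by omega
  · -- `γ = -α`
    have hγ' : γ = -α := eq_neg_of_ip_eq_neg_two hα hγ h
    subst hγ'
    have hs : TO4_s C α (-α) = 1 := by
      unfold TO4_s
      rw [h]
      norm_num
    have hr : -α - (-2 : ℤ) • α = α := by
      funext k
      simp only [Pi.sub_apply, Pi.neg_apply, Pi.smul_apply, smul_eq_mul]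
      ring
    rw [h, hs, hr, Int.cast_one, one_mul]
    have hz : u ^ (-2 : ℤ) = t ^ 2 := by
      rw [zpow_neg, ← inv_zpow, hti]
      norm_cast
    rw [hz]
    have c1 : g1 (E C (-α)) = (E C (-α) - t • ht C α + t ^ 2 • E C α : Lm C F) := by rw [f1, a2]
    have c2 : g2 (E C (-α)) = (E C (-α) : Lm C F) := by rw [f2, b0 _ hnα (by rw [hnα]; norm_num)]
    have c3 : g2 (ht C α) = (ht C α + (2 * u) • E C (-α) : Lm C F) := by
      rw [f2, b4, ip_neg_left, hα]
      push_cast
      rw [mul_neg, neg_smul, sub_neg_eq_add, mul_comm u 2]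
    have c4 : g2 (E C α) = (E C α + u • ht C α + u ^ 2 • E C (-α) : Lm C F) := by
      have := b2
      rw [neg_neg, ht_neg, smul_neg, sub_neg_eq_add] at this
      rw [f2, this]
    have c5 : g1 (E C α) = (E C α : Lm C F) := by rw [f1, a0 _ hα (by rw [hα]; norm_num)]
    rw [c1, map_add, map_sub, map_smul, map_smul, c2, c3, c4]
    have : (E C (-α) - t • (ht C α + (2 * u) • E C (-α)) + t ^ 2 • (E C α + u • ht C α + u ^ 2 • E C (-α)) : Lm C F) =
        t ^ 2 • E C α := by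
      have e1 : t ^ 2 * u = t := by rw [pow_two, mul_assoc, htu, mul_one]
      have e2 : t ^ 2 * u ^ 2 = 1 := by rw [← mul_pow, htu, one_pow]
      have e3 : t * (2 * u) = 2 := by rw [mul_left_comm, htu, mul_one]
      rw [smul_add, smul_add, smul_add, smul_smul, smul_smul, smul_smul, e1, e2, e3]
      module
    rw [this, map_smul, c5]
  · -- `m = -1`
    have hs : TO4_s C α γ = sg C α γ := by
      unfold TO4_s
      rw [h]
      norm_num
    have hr : γ - (-1 : ℤ) • α = α + γ := by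
      funext k
      simp only [Pi.sub_apply, Pi.add_apply, Pi.smul_apply, smul_eq_mul]
      ring
    have hroot : ip C (α + γ) (α + γ) = 2 := (add_root_iff hα hγ).2 h
    have hz : u ^ (-1 : ℤ) = t := by
      rw [zpow_neg, zpow_one, hti]
    rw [h, hs, hr, hz]
    have c1 : g1 (E C γ) = (E C γ + (t * (sg C α γ : F)) • E C (α + γ) : Lm C F) := by rw [f1, a1 _ hγ h]
    have c2 : g2 (E C γ) = (E C γ : Lm C F) := by rw [f2, b0 _ hγ (by rw [hneg, h]; norm_num)]
    have c3 : g2 (E C (α + γ)) = (E C (α + γ) - (u * (sg C α γ : F)) • E C γ : Lm C F) := by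
      have k1 : ip C (-α) (α + γ) = -1 := by
        rw [ip_neg_left, ip_add_right, hα, h]; norm_num
      have k2 : -α + (α + γ) = γ := by abel
      rw [f2, b1 _ hroot k1, k2, sg_neg_left, sg_add_right, hss]
      push_cast
      rw [neg_one_mul, mul_neg, neg_smul, ← sub_eq_add_neg]
    have c5 : g1 (E C (α + γ)) = (E C (α + γ) : Lm C F) := by
      rw [f1, a0 _ hroot (by rw [ip_add_right, hα, h]; norm_num)]
    rw [c1, map_add, map_smul, c2, c3]
    have : (E C γ + (t * (sg C α γ : F)) • (E C (α + γ) - (u * (sg C α γ : F)) • E C γ) : Lm C F) =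
        (t * (sg C α γ : F)) • E C (α + γ) := by
      have e1 : t * (sg C α γ : F) * (u * (sg C α γ : F)) = 1 := by
        calc t * (sg C α γ : F) * (u * (sg C α γ : F)) = (t * u) * ((sg C α γ : F) * (sg C α γ : F)) := by ring
          _ = 1 := by rw [htu, hsq, one_mul]
      rw [smul_sub, smul_smul, e1, one_smul]
      abel
    rw [this, map_smul, c5, mul_comm t]
  · -- `m = 0`
    have hs : TO4_s C α γ = 1 := by
      unfold TO4_s
      rw [h]
      norm_num
    rw [h, hs, zero_smul, sub_zero, zpow_zero, Int.cast_one, one_mul, one_smul]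
    have c1 : g1 (E C γ) = (E C γ : Lm C F) := by rw [f1, a0 _ hγ (by rw [h])]
    have c2 : g2 (E C γ) = (E C γ : Lm C F) := by rw [f2, b0 _ hγ (by rw [hneg, h]; norm_num)]
    rw [c1, c2, c1]
  · -- `m = 1`
    have hs : TO4_s C α γ = sg C α γ := by
      unfold TO4_s
      rw [h]
      norm_num
    have hr : γ - (1 : ℤ) • α = -α + γ := by
      rw [one_smul]
      abel
    have hroot : ip C (-α + γ) (-α + γ) = 2 := (add_root_iff hnα hγ).2 (by rw [hneg, h])
    rw [h, hs, hr, zpow_one]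
    have c1 : g1 (E C γ) = (E C γ : Lm C F) := by rw [f1, a0 _ hγ (by rw [h]; norm_num)]
    have c2 : g2 (E C γ) = (E C γ + (u * (sg C α γ : F)) • E C (-α + γ) : Lm C F) := by
      rw [f2, b1 _ hγ (by rw [hneg, h]), sg_neg_left]
    have c3 : g1 (E C (-α + γ)) = (E C (-α + γ) - (t * (sg C α γ : F)) • E C γ : Lm C F) := by
      have k1 : ip C α (-α + γ) = -1 := by
        rw [ip_add_right, ip_neg_right, hα, h]; norm_num
      have k2 : α + (-α + γ) = γ := by abel
      rw [f1, a1 _ hroot k1, k2, sg_add_right, sg_neg_right, hss]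
      push_cast
      rw [neg_one_mul, mul_neg, neg_smul, ← sub_eq_add_neg]
    rw [c1, c2, map_add, map_smul, c1, c3]
    have e1 : u * (sg C α γ : F) * (t * (sg C α γ : F)) = 1 := by
      calc u * (sg C α γ : F) * (t * (sg C α γ : F)) = (u * t) * ((sg C α γ : F) * (sg C α γ : F)) := by ring
        _ = 1 := by rw [hut, hsq, one_mul]
    rw [smul_sub, smul_smul, e1, one_smul, mul_comm u]
    abel
  · -- `γ = α`
    have hγ' : α = γ := eq_of_ip_eq_two hα hγ h
    subst hγ'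
    have hs : TO4_s C α α = 1 := by
      unfold TO4_s
      rw [h]
      norm_num
    have hr : α - (2 : ℤ) • α = -α := by
      funext k
      simp only [Pi.sub_apply, Pi.neg_apply, Pi.smul_apply, smul_eq_mul]
      ring
    have hz : u ^ (2 : ℤ) = u ^ 2 := by norm_cast
    rw [h, hs, hr, hz, Int.cast_one, one_mul]
    have c1 : g1 (E C (-α)) = (E C (-α) - t • ht C α + t ^ 2 • E C α : Lm C F) := by rw [f1, a2]
    have c3 : g1 (ht C α) = (ht C α - (2 * t) • E C α : Lm C F) := by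
      rw [f1, a4, hα]
      push_cast
      rw [mul_comm t 2]
    have c4 : g2 (E C α) = (E C α + u • ht C α + u ^ 2 • E C (-α) : Lm C F) := by
      have := b2
      rw [neg_neg, ht_neg, smul_neg, sub_neg_eq_add] at this
      rw [f2, this]
    have c5 : g1 (E C α) = (E C α : Lm C F) := by rw [f1, a0 _ hα (by rw [hα]; norm_num)]
    rw [c5, c4, map_add, map_add, map_smul, map_smul, c5, c3, c1]
    have e1 : u ^ 2 * t = u := by rw [pow_two, mul_assoc, hut, mul_one]
    have e2 : u ^ 2 * t ^ 2 = 1 := by rw [← mul_pow, hut, one_pow]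
    have e3 : u * (2 * t) = 2 := by rw [mul_left_comm, hut, mul_one]
    rw [smul_add, smul_sub, smul_sub, smul_smul, smul_smul, smul_smul, e1, e2, e3]
    module

end

theorem TO4 : TO4_stmt := by
  intro n C _ F _ hb α hα t ht0
  obtain ⟨-, hEx, hX, -⟩ := f_EXF n C F hb
  have hnα : ip C (-α) (-α) = 2 := neg_root C hα
  obtain ⟨g1, hg1, e1⟩ := (hX (E C α) (hEx α hα)).2.2.2.2.1 t
  obtain ⟨g2, hg2, e2⟩ := (hX (E C (-α)) (hEx (-α) hnα)).2.2.2.2.1 t⁻¹
  obtain ⟨k1, hk1, f1⟩ := (hX (E C α) (hEx α hα)).2.2.2.2.1 1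
  obtain ⟨k2, hk2, f2⟩ := (hX (E C (-α)) (hEx (-α) hnα)).2.2.2.2.1 1
  have htu : t * t⁻¹ = 1 := mul_inv_cancel₀ ht0
  refine ⟨(g1 * g2 * g1) * (k1 * k2 * k1)⁻¹, Subgroup.mul_mem _ (Subgroup.mul_mem _ (Subgroup.mul_mem _ hg1 hg2) hg1)
    (Subgroup.inv_mem _ (Subgroup.mul_mem _ (Subgroup.mul_mem _ hk1 hk2) hk1)), fun γ hγ => ?_⟩
  set m := ip C γ α with hm
  set γ' := γ - m • α with hγ'
  have hm' : ip C γ' α = -m := by
    rw [hγ', ip_sub_left, ip_smul_left, hα, ← hm]
    ring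
  have hroot : ip C γ' γ' = 2 := by
    have h1 : ip C γ' γ' = ip C γ' γ - m * ip C γ' α := by
      conv_lhs => rw [hγ', ip_sub_right, ip_smul_right]
    have h2 : ip C γ' γ = 2 - m * m := by
      rw [hγ', ip_sub_left, ip_smul_left, hγ, ip_comm C α γ, ← hm]
    rw [h1, h2, hm']
    ring
  have hback : γ' - ip C γ' α • α = γ := by
    rw [hm', hγ', neg_smul, sub_neg_eq_add, sub_add_cancel]
  have n1 := TO4_n C hα (one_mul (1 : F)) k1 k2 f1 f2 γ' hroot
  have n2 := TO4_n C hα htu g1 g2 e1 e2 γ' hroot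
  rw [hback] at n1 n2
  rw [one_zpow, mul_one] at n1
  have hs : (TO4_s C α γ' : F) * (TO4_s C α γ' : F) = 1 := by
    rcases TO4_s_cases C α γ' with h | h <;> rw [h] <;> simp
  have hinv2 : (k1 * k2 * k1)⁻¹ (E C γ) = (TO4_s C α γ' : F) • (E C γ' : Lm C F) := by
    have h3 : (k1 * k2 * k1) ((TO4_s C α γ' : F) • (E C γ' : Lm C F)) = E C γ := by
      rw [map_smul, n1, smul_smul, hs, one_smul]
    rw [← h3]
    exact LinearEquiv.symm_apply_apply _ _
  have hfin : ((g1 * g2 * g1) * (k1 * k2 * k1)⁻¹) (E C γ) = (g1 * g2 * g1) ((k1 * k2 * k1)⁻¹ (E C γ)) := rfl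
  rw [hfin, hinv2, map_smul, n2, smul_smul, ← mul_assoc, hs, one_mul, hm', zpow_neg, inv_zpow, inv_inv]

end Pool.Agent.TRI
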